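import Pool.Agent.H14.T1.Md

/-!
ROW MU_Em (project MP_78d38b_T1, Mathlib only, about 120 lines). Embeddings of the multiquadratic field.

PROOF. (1) `sq_padic`: an odd prime `l`, `d` prime to `l` and a square modulo `l`: `d` is a square in
`ℚ_[l]`; for `l = 2`, `d = 1` modulo `8`. Hensel: there is the theorem `sq_prod` and the lemmas around
it in Pool/Agent/H93/MQ (find it with grep; you may import the file or copy the argument:
`hensels_lemma` for `X ^ 2 - d` at `t`, for `l = 2` at `1`: `‖1 - d‖ ≤ 1/8 < ‖2‖ ^ 2 = 1/4`).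
(2) `emb_comp`: let `φ : AlgebraicClosure ℚ →ₐ[ℚ] PadicAlgCl l` (`IsAlgClosed.lift`). Let `α` generate
`K` over the rationals (`Field.exists_primitive_element`) and `E = ℚ_[l]⟮φ (i α)⟯`, finite-dimensional
over `ℚ_[l]` (`IntermediateField.adjoin.finiteDimensional`; `φ (i α)` is integral over `ℚ_[l]`,
as it is algebraic over `ℚ`, or since the algebraic closure is algebraic). The set of
the `x` with `φ x ∈ E` is the intermediate field `(E.restrictScalars ℚ).comap φ`; it contains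
`i.fieldRange` (all elements are polynomials in `i α`: as in the theorem `Chain_level` of
Pool/Agent/H93/MQ/Chain.lean) and the generators of `Mf D`: if `x ^ 2 = d` then `(φ x) ^ 2 = d = t ^ 2`
for some `t ∈ ℚ_[l]`, so `φ x = ± t ∈ E`. So it contains `i.fieldRange ⊔ Mf D`; take for `f` the
restriction of `φ`.
(3) `emb_Mf`: the same with `K = ℚ`: the image of `Mf D` under `φ` lies in the image of `ℚ_[l]`
(`IntermediateField.fieldRange`/`bot`), compare the theorem `exists_emb` of Pool/Agent/H93/MQ/FldC.lean.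
-/

set_option autoImplicit false
open scoped Classical

namespace H14T1

/-- All elements of `D` are squares of units modulo `l` (one modulo `8` for `l = 2`). -/
def SplitAt (D : Set ℕ) (l : ℕ) : Prop :=
  ∀ d ∈ D, ¬ l ∣ d ∧ (∃ t : ℤ, (l : ℤ) ∣ (d : ℤ) - t ^ 2) ∧ (l = 2 → d % 8 = 1)

lemma Em_core {p : ℕ} [Fact p.Prime] {u a : ℤ_[p]}
    (h : ‖a ^ 2 - u‖ < ‖2 * a‖ ^ 2) : ∃ z : ℤ_[p], z ^ 2 = u := by
  have hA : (Polynomial.aeval a) (Polynomial.X ^ 2 - Polynomial.C u : Polynomial ℤ_[p])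
      = a ^ 2 - u := by simp
  have hD : (Polynomial.aeval a)
      (Polynomial.derivative (Polynomial.X ^ 2 - Polynomial.C u : Polynomial ℤ_[p]))
      = 2 * a := by
    simp
    left; norm_num
  have hh := hensels_lemma (F := (Polynomial.X ^ 2 - Polynomial.C u : Polynomial ℤ_[p]))
    (a := a) (by rw [hA, hD]; exact h)
  obtain ⟨z, hz, -⟩ := hh
  refine ⟨z, ?_⟩
  have : (Polynomial.aeval z) (Polynomial.X ^ 2 - Polynomial.C u : Polynomial ℤ_[p])
      = z ^ 2 - u := by simp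
  rw [this] at hz
  exact sub_eq_zero.mp hz

lemma Em_norm {p : ℕ} [Fact p.Prime] {c : ℤ} (hc : ¬ (p : ℤ) ∣ c) :
    ‖((c : ℤ) : ℤ_[p])‖ = 1 := by
  have h1 : ¬ ‖((c : ℤ) : ℤ_[p])‖ < 1 := by
    rw [PadicInt.norm_int_lt_one_iff_dvd]; exact hc
  exact le_antisymm (PadicInt.norm_le_one _) (not_lt.mp h1)

lemma Em_sq {l : ℕ} [Fact l.Prime] {d : ℕ} {a : ℤ_[l]}
    (h : ‖a ^ 2 - (d : ℤ_[l])‖ < ‖2 * a‖ ^ 2) : IsSquare ((d : ℕ) : ℚ_[l]) := by
  obtain ⟨z, hz⟩ := Em_core h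
  refine ⟨((z : ℤ_[l]) : ℚ_[l]), ?_⟩
  have h5 := congrArg (fun w : ℤ_[l] => (w : ℚ_[l])) hz
  push_cast at h5
  rw [← h5]; ring

theorem sq_padic {l : ℕ} [Fact l.Prime] {d : ℕ} (h1 : ¬ l ∣ d)
    (h2 : ∃ t : ℤ, (l : ℤ) ∣ (d : ℤ) - t ^ 2) (h3 : l = 2 → d % 8 = 1) :
    IsSquare ((d : ℕ) : ℚ_[l]) := by
  have hl : l.Prime := Fact.out
  by_cases hl2 : l = 2
  · subst hl2
    have h8 := h3 rfl
    obtain ⟨m, hm⟩ : ∃ m : ℕ, d = 8 * m + 1 := ⟨d / 8, by omega⟩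
    refine Em_sq (a := 1) ?_
    have e1 : (1 : ℤ_[2]) ^ 2 - (d : ℤ_[2]) = -(((2 : ℕ) : ℤ_[2]) ^ 3 * (m : ℤ_[2])) := by
      rw [hm]; push_cast; ring
    have e2 : (2 : ℤ_[2]) * 1 = ((2 : ℕ) : ℤ_[2]) := by push_cast; ring
    rw [e1, e2, norm_neg, norm_mul, norm_pow, PadicInt.norm_p]
    have h4 : ‖(m : ℤ_[2])‖ ≤ 1 := PadicInt.norm_le_one _
    have h5 : 0 ≤ ‖(m : ℤ_[2])‖ := norm_nonneg _
    push_cast
    nlinarith
  · obtain ⟨t, ht⟩ := h2
    have htl : ¬ (l : ℤ) ∣ t := by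
      intro h
      have h4 : (l : ℤ) ∣ (d : ℤ) := by
        have := dvd_add ht (dvd_pow h two_ne_zero)
        simpa using this
      exact h1 (by exact_mod_cast h4)
    have h21 : ‖(2 : ℤ_[l])‖ = 1 := by
      have := Em_norm (p := l) (c := 2) (by
        intro hd
        have : l ∣ 2 := by exact_mod_cast hd
        exact hl2 ((Nat.prime_dvd_prime_iff_eq hl Nat.prime_two).mp this))
      simpa using this
    refine Em_sq (a := ((t : ℤ) : ℤ_[l])) ?_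
    rw [norm_mul, h21, Em_norm htl, norm_sub_rev]
    have h5 : ‖(((d : ℤ) - t ^ 2 : ℤ) : ℤ_[l])‖ < 1 := PadicInt.norm_int_lt_one_iff_dvd _ |>.2 ht
    push_cast at h5
    simpa using h5

lemma Em_gen {D : Set ℕ} {l : ℕ} [Fact l.Prime] (hl : SplitAt D l)
    (φ : AlgebraicClosure ℚ →ₐ[ℚ] PadicAlgCl l) {x : AlgebraicClosure ℚ} {d : ℕ} (hd : d ∈ D)
    (hx : x ^ 2 = (d : AlgebraicClosure ℚ)) :
    ∃ y : ℚ_[l], algebraMap ℚ_[l] (PadicAlgCl l) y = φ x := by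
  obtain ⟨h1, h2, h3⟩ := hl d hd
  obtain ⟨y, hy⟩ := sq_padic h1 h2 h3
  have h4 : φ x ^ 2 = (algebraMap ℚ_[l] (PadicAlgCl l) y) ^ 2 := by
    rw [← map_pow, hx, map_natCast, ← map_pow, sq y, ← hy, map_natCast]
  rcases sq_eq_sq_iff_eq_or_eq_neg.mp h4 with h5 | h5
  · exact ⟨y, h5.symm⟩
  · exact ⟨-y, by rw [map_neg, h5]⟩

theorem emb_comp {K : Type} [Field K] [NumberField K] {D : Set ℕ} {l : ℕ} [Fact l.Prime]
    (hl : SplitAt D l) (i : K →ₐ[ℚ] AlgebraicClosure ℚ) :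
    ∃ (f : (i.fieldRange ⊔ Mf D : IntermediateField ℚ (AlgebraicClosure ℚ)) →+* PadicAlgCl l)
      (E : IntermediateField ℚ_[l] (PadicAlgCl l)), FiniteDimensional ℚ_[l] E ∧ ∀ x, f x ∈ E := by
  have hal : Algebra.IsAlgebraic ℚ (AlgebraicClosure ℚ) := AlgebraicClosure.isAlgebraic ℚ
  let φ : AlgebraicClosure ℚ →ₐ[ℚ] PadicAlgCl l := IsAlgClosed.lift
  obtain ⟨α, hα⟩ := Field.exists_primitive_element ℚ K
  let E : IntermediateField ℚ_[l] (PadicAlgCl l) := IntermediateField.adjoin ℚ_[l] {φ (i α)}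
  have hE : FiniteDimensional ℚ_[l] E :=
    IntermediateField.adjoin.finiteDimensional (Algebra.IsIntegral.isIntegral _)
  have h1 : i.fieldRange ≤ (E.restrictScalars ℚ).comap φ := by
    have h2 : IntermediateField.adjoin ℚ {α} ≤ ((E.restrictScalars ℚ).comap φ).comap i := by
      rw [IntermediateField.adjoin_le_iff]
      intro y hy
      rw [Set.mem_singleton_iff] at hy
      subst hy
      exact IntermediateField.mem_adjoin_simple_self ℚ_[l] (φ (i y))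
    rw [hα] at h2
    rintro _ ⟨x, rfl⟩
    exact h2 (IntermediateField.mem_top (x := x))
  have h2 : Mf D ≤ (E.restrictScalars ℚ).comap φ := by
    unfold Mf
    rw [IntermediateField.adjoin_le_iff]
    rintro x ⟨d, hd, hx⟩
    obtain ⟨y, hy⟩ := Em_gen hl φ hd hx
    show φ x ∈ E
    rw [← hy]
    exact E.algebraMap_mem y
  have h3 : i.fieldRange ⊔ Mf D ≤ (E.restrictScalars ℚ).comap φ := sup_le h1 h2
  refine ⟨(φ : AlgebraicClosure ℚ →+* PadicAlgCl l).comp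
    (algebraMap (i.fieldRange ⊔ Mf D : IntermediateField ℚ (AlgebraicClosure ℚ))
      (AlgebraicClosure ℚ)), E, hE, fun x => h3 x.2⟩

theorem emb_Mf {D : Set ℕ} {l : ℕ} [Fact l.Prime] (hl : SplitAt D l) :
    Nonempty (Mf D →+* ℚ_[l]) := by
  have hal : Algebra.IsAlgebraic ℚ (AlgebraicClosure ℚ) := AlgebraicClosure.isAlgebraic ℚ
  let φ : AlgebraicClosure ℚ →ₐ[ℚ] PadicAlgCl l := IsAlgClosed.lift
  let ψ : ℚ_[l] →ₐ[ℚ] PadicAlgCl l := Algebra.algHom ℚ ℚ_[l] (PadicAlgCl l)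
  have h1 : Mf D ≤ ψ.fieldRange.comap φ := by
    unfold Mf
    rw [IntermediateField.adjoin_le_iff]
    rintro x ⟨d, hd, hx⟩
    obtain ⟨y, hy⟩ := Em_gen hl φ hd hx
    exact ⟨y, hy⟩
  let φ' : Mf D →ₐ[ℚ] ψ.fieldRange :=
    (φ.comp (Mf D).val).codRestrict ψ.fieldRange.toSubalgebra (fun x => h1 x.2)
  let e : ℚ_[l] ≃ₐ[ℚ] ψ.fieldRange := AlgEquiv.ofInjectiveField ψ
  exact ⟨(e.symm : ψ.fieldRange →+* ℚ_[l]).comp (φ' : Mf D →+* ψ.fieldRange)⟩

end H14T1
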