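import Pool.Agent.H14.T1.Md
import Pool.Agent.H93.MQ.Rsc
import Pool.Agent.H93.MQ.SelC

/-!
ROW MU_Fk (project MP_78d38b_T1, about 200 lines; ADAPTATION of the proved file
Pool/Agent/H93/MQ/FinF.lean). Finiteness of the points over a field which embeds into a finite extension
of `ℚ_[l]` and of `ℚ_[l']`, when all points are torsion.

CHANGES against FinF.lean: `ℚ_[l]` is replaced by the normed field `PadicAlgCl l` (Mathlib,
NumberTheory/Padics/Complex.lean; ultrametric: `PadicAlgCl.isNonarchimedean`; the norm of the image of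
`x : ℚ_[l]` is `‖x‖`: `PadicAlgCl.norm_extends`, so the norm of the image of an integer is known),
and the curve `y^2 = x (x - A) (x - B)` by `cv F A B : y^2 = x (x^2 + A x + B)`, with discriminant
`16 B^2 (A^2 - 4 B)`. The residue `finF_res : F → ZMod l` is replaced by a function `F → ι` to a finite
type such that `‖f x‖ ≤ 1`, `‖f y‖ ≤ 1` and equal values imply `‖f x - f y‖ < 1`: the subspace
`E.toSubmodule` of `PadicAlgCl l` is a finite-dimensional normed space over the proper (locally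
compact) field `ℚ_[l]` (`Padic` instance in NumberTheory/Padics/ProperSpace.lean), so it is a proper
space (`FiniteDimensional.proper ℚ_[l] E.toSubmodule`), its closed unit ball is compact
(`isCompact_closedBall`), and it is covered by finitely many balls of radius `1/2` around points
`t` (`IsCompact.finite_cover_balls`); send `x` to (an index of) a centre of a ball containing `f x`
(`Classical.choose`). Two elements with the same centre have distance `< 1`.
The rest is word for word as in FinF.lean (`InE1`, `inE1_sub`, `y_mem`, `InE1.eq_zero` of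
Pool/Agent/H11/Local.lean; these are about a valuation subring of `F` and do not mention `ℚ_[l]`).
The ellipticity of `cv F A B`: its discriminant is nonzero because `F` has characteristic zero
(`f.charZero`) and `2 B (A^2 - 4 B) ≠ 0` (as `l` does not divide it).
-/

set_option autoImplicit false
set_option linter.style.haveILetI false
open scoped Classical

open NumberField IsDedekindDomain WeierstrassCurve Pool.Agent.H10 Pool.Agent.H11

namespace H14T1

/-- the elements whose image has norm at most one -/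
def Fk_R {F : Type*} [Field F] {l : ℕ} [Fact l.Prime] (f : F →+* PadicAlgCl l) : ValuationSubring F where
  carrier := {x | ‖f x‖ ≤ 1}
  mul_mem' := by
    intro a b ha hb
    show ‖f (a * b)‖ ≤ 1
    rw [map_mul, norm_mul]
    exact mul_le_one₀ ha (norm_nonneg _) hb
  one_mem' := by
    show ‖f 1‖ ≤ 1
    rw [map_one, norm_one]
  add_mem' := by
    intro a b ha hb
    show ‖f (a + b)‖ ≤ 1
    rw [map_add]
    exact (PadicAlgCl.isNonarchimedean l _ _).trans (max_le ha hb)
  zero_mem' := by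
    show ‖f 0‖ ≤ 1
    rw [map_zero, norm_zero]
    exact zero_le_one
  neg_mem' := by
    intro a ha
    show ‖f (-a)‖ ≤ 1
    rw [map_neg, norm_neg]
    exact ha
  mem_or_inv_mem' := by
    intro x
    show ‖f x‖ ≤ 1 ∨ ‖f x⁻¹‖ ≤ 1
    rw [map_inv₀, norm_inv]
    rcases le_total ‖f x‖ 1 with h | h
    · exact Or.inl h
    · exact Or.inr (inv_le_one_of_one_le₀ h)

section Fk

variable {F : Type*} [Field F] {l : ℕ} [Fact l.Prime] (f : F →+* PadicAlgCl l)

lemma Fk_mem {x : F} : x ∈ Fk_R f ↔ ‖f x‖ ≤ 1 := Iff.rfl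

lemma Fk_lt {x : F} : (Fk_R f).valuation x < 1 ↔ ‖f x‖ < 1 := by
  rw [← ValuationSubring.mem_nonunits_iff, ValuationSubring.mem_nonunits_iff_or, Fk_mem, map_inv₀,
    norm_inv]
  constructor
  · rintro (rfl | h)
    · rw [map_zero, norm_zero]; exact zero_lt_one
    · by_contra hcon
      push Not at hcon
      exact h (inv_le_one_of_one_le₀ hcon)
  · intro h
    by_cases hx : x = 0
    · exact Or.inl hx
    · right
      push Not
      have hpos : 0 < ‖f x‖ := norm_pos_iff.2 ((map_ne_zero f).2 hx)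
      exact (one_lt_inv₀ hpos).2 h

lemma Fk_eq_one {x : F} (h : ‖f x‖ = 1) : (Fk_R f).valuation x = 1 := by
  apply le_antisymm
  · rw [ValuationSubring.valuation_le_one_iff, Fk_mem, h]
  · by_contra hcon
    push Not at hcon
    rw [Fk_lt, h] at hcon
    exact lt_irrefl _ hcon

lemma Fk_norm_int (n : ℤ) : ‖(n : PadicAlgCl l)‖ = ‖(n : ℚ_[l])‖ := by
  rw [← PadicAlgCl.norm_extends, map_intCast]

lemma Fk_nat {n : ℕ} (h : n.Coprime l) : (Fk_R f).valuation (n : F) = 1 := by
  apply Fk_eq_one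
  rw [map_natCast]
  have h1 := Fk_norm_int (l := l) (n : ℤ)
  rw [Int.cast_natCast, Int.cast_natCast] at h1
  rw [h1, Padic.norm_natCast_eq_one_iff]
  exact h.symm

lemma Fk_integral (A B : ℤ) : Integral (Fk_R f) (cv F A B) where
  a₁ := (Fk_R f).zero_mem
  a₂ := intCast_mem _ A
  a₃ := (Fk_R f).zero_mem
  a₄ := intCast_mem _ B
  a₆ := (Fk_R f).zero_mem

lemma Fk_disc (A B : ℤ) : (cv F A B).Δ = ((16 * B ^ 2 * (A ^ 2 - 4 * B) : ℤ) : F) := by
  rw [WeierstrassCurve.Δ, WeierstrassCurve.b₂, WeierstrassCurve.b₄, WeierstrassCurve.b₆,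
    WeierstrassCurve.b₈]
  simp only [cv]
  push_cast
  ring

lemma Fk_dvd {A B : ℤ} (h : (l : ℤ) ∣ 16 * B ^ 2 * (A ^ 2 - 4 * B)) :
    (l : ℤ) ∣ 2 * B * (A ^ 2 - 4 * B) := by
  have hp : Prime (l : ℤ) := Nat.prime_iff_prime_int.1 Fact.out
  rcases hp.dvd_or_dvd h with h | h
  · rcases hp.dvd_or_dvd h with h | h
    · have h2 : (l : ℤ) ∣ 2 ^ 4 := by simpa using h
      exact Dvd.dvd.mul_right (Dvd.dvd.mul_right (hp.dvd_of_dvd_pow h2) B) _
    · exact Dvd.dvd.mul_right (Dvd.dvd.mul_left (hp.dvd_of_dvd_pow h) 2) _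
  · exact Dvd.dvd.mul_left h _

lemma Fk_unit {A B : ℤ} (hl : ¬ (l : ℤ) ∣ 2 * B * (A ^ 2 - 4 * B)) :
    (Fk_R f).valuation (cv F A B).Δ = 1 := by
  apply Fk_eq_one
  rw [Fk_disc, map_intCast, Fk_norm_int]
  apply le_antisymm (Padic.norm_int_le_one _)
  by_contra hcon
  push Not at hcon
  rw [Padic.norm_intCast_lt_one_iff] at hcon
  exact hl (Fk_dvd hcon)

include f in
lemma Fk_ell {A B : ℤ} (hl : ¬ (l : ℤ) ∣ 2 * B * (A ^ 2 - 4 * B)) : (cv F A B).IsElliptic := by
  haveI : CharZero F := f.charZero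
  rw [WeierstrassCurve.isElliptic_iff, isUnit_iff_ne_zero, Fk_disc, Int.cast_ne_zero]
  intro h0
  apply hl
  apply Fk_dvd
  rw [h0]
  exact dvd_zero _

/-- residues modulo a finite set -/
lemma Fk_res (E : IntermediateField ℚ_[l] (PadicAlgCl l)) [FiniteDimensional ℚ_[l] E]
    (hE : ∀ x, f x ∈ E) : ∃ (ι : Type) (_ : Finite ι) (res : F → ι),
      ∀ x y, ‖f x‖ ≤ 1 → ‖f y‖ ≤ 1 → res x = res y → ‖f (x - y)‖ < 1 := by
  let M : Submodule ℚ_[l] (PadicAlgCl l) := Subalgebra.toSubmodule E.toSubalgebra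
  haveI : FiniteDimensional ℚ_[l] M := ‹FiniteDimensional ℚ_[l] E›
  haveI : ProperSpace M := FiniteDimensional.proper ℚ_[l] M
  obtain ⟨t, -, htf, hcov⟩ := (isCompact_closedBall (0 : M) 1).finite_cover_balls
    (e := 1 / 2) (by norm_num)
  have key : ∀ x : F, ‖f x‖ ≤ 1 → ∃ y : t, dist (⟨f x, hE x⟩ : M) y < 1 / 2 := by
    intro x hx
    have h1 : (⟨f x, hE x⟩ : M) ∈ Metric.closedBall (0 : M) 1 := by
      rw [mem_closedBall_zero_iff]
      exact hx
    have h2 := hcov h1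
    rw [Set.mem_iUnion₂] at h2
    obtain ⟨y, hy, h3⟩ := h2
    exact ⟨⟨y, hy⟩, h3⟩
  haveI : Finite t := htf
  refine ⟨Option t, inferInstance, fun x => if h : ‖f x‖ ≤ 1 then some (key x h).choose else none, ?_⟩
  intro x y hx hy hxy
  simp only at hxy
  rw [dif_pos hx, dif_pos hy, Option.some_inj] at hxy
  have h1 := (key x hx).choose_spec
  have h2 := (key y hy).choose_spec
  rw [hxy] at h1
  have h3 : dist (⟨f x, hE x⟩ : M) ⟨f y, hE y⟩ < 1 := by
    have h4 := dist_triangle (⟨f x, hE x⟩ : M) ((key y hy).choose : M) ⟨f y, hE y⟩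
    rw [dist_comm ((key y hy).choose : M) ⟨f y, hE y⟩] at h4
    linarith
  rw [dist_eq_norm] at h3
  rw [map_sub]
  exact h3

/-- the code of a point -/
noncomputable def Fk_code {ι : Type} (res : F → ι) {W : WeierstrassCurve F} :
    W.toAffine.Point → Option (ι × ι)
  | 0 => none
  | .some x y _ => if ‖f x‖ ≤ 1 then some (res x, res y) else none

lemma Fk_none {ι : Type} {res : F → ι} {W : WeierstrassCurve F} {P : W.toAffine.Point}
    (h : Fk_code f res P = none) : InE1 (Fk_R f) W P := by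
  match P, h with
  | 0, _ => exact Or.inl rfl
  | .some x y hxy, h =>
    right
    refine ⟨x, y, hxy, rfl, ?_⟩
    intro hx
    rw [Fk_mem] at hx
    rw [Fk_code, if_pos hx] at h
    exact Option.some_ne_none _ h

lemma Fk_some {ι : Type} {res : F → ι} {W : WeierstrassCurve F} {P : W.toAffine.Point} {c : ι × ι}
    (h : Fk_code f res P = some c) : ∃ x y h, P = .some x y h ∧ ‖f x‖ ≤ 1 ∧ res x = c.1 ∧
      res y = c.2 := by
  match P, h with
  | 0, h => exact absurd (show (none : Option (ι × ι)) = some c from h) (by simp)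
  | .some x y hxy, h =>
    by_cases hx : ‖f x‖ ≤ 1
    · rw [Fk_code, if_pos hx, Option.some_inj] at h
      exact ⟨x, y, hxy, rfl, hx, by rw [← h], by rw [← h]⟩
    · rw [Fk_code, if_neg hx] at h
      exact absurd h.symm (Option.some_ne_none _)

lemma Fk_sub {ι : Type} {res : F → ι}
    (hres : ∀ x y, ‖f x‖ ≤ 1 → ‖f y‖ ≤ 1 → res x = res y → ‖f (x - y)‖ < 1)
    {W : WeierstrassCurve F} (hW : Integral (Fk_R f) W)
    [W.IsElliptic] (hΔ : (Fk_R f).valuation W.Δ = 1) {P Q : W.toAffine.Point}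
    (h : Fk_code f res P = Fk_code f res Q) : InE1 (Fk_R f) W (P - Q) := by
  rcases hP : Fk_code f res P with _ | c
  · exact (InE1.add_sub hW (Fk_none f hP) (Fk_none f (h.symm.trans hP))).2.1
  · obtain ⟨x, y, h1, rfl, hx, e1, e2⟩ := Fk_some f hP
    obtain ⟨x', y', h1', rfl, hx', e1', e2'⟩ := Fk_some f (h.symm.trans hP)
    have hy := y_mem hW (A := Fk_R f) hx h1.1
    have hy' := y_mem hW (A := Fk_R f) hx' h1'.1
    exact inE1_sub hW hΔ h1 h1' hx hx' ((Fk_lt f).2 (hres x x' hx hx' (e1.trans e1'.symm)))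
      ((Fk_lt f).2 (hres y y' hy hy' (e2.trans e2'.symm)))

end Fk

theorem Fk_prime_to {F : Type*} [Field F] {A B : ℤ} {l : ℕ} [Fact l.Prime]
    (hl : ¬ (l : ℤ) ∣ 2 * B * (A ^ 2 - 4 * B)) (f : F →+* PadicAlgCl l)
    (E : IntermediateField ℚ_[l] (PadicAlgCl l)) [FiniteDimensional ℚ_[l] E] (hE : ∀ x, f x ∈ E) :
    {P : (cv F A B).toAffine.Point | ∃ n : ℕ, n.Coprime l ∧ n • P = 0}.Finite := by
  haveI : (cv F A B).IsElliptic := Fk_ell f hl
  have hW := Fk_integral f A B
  have hΔ := Fk_unit f hl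
  obtain ⟨ι, hι, res, hres⟩ := Fk_res f E hE
  haveI := hι
  apply Set.Finite.of_finite_image (f := Fk_code f res) (Set.toFinite _)
  rintro P ⟨n, hn, hP⟩ Q ⟨m, hm, hQ⟩ hPQ
  have h1 := Fk_sub f hres hW hΔ hPQ
  rw [← sub_eq_zero]
  refine InE1.eq_zero hW h1 (n * m) (Fk_nat f (Nat.Coprime.mul_left hn hm)) ?_
  rw [smul_sub, mul_comm, mul_smul, hP, mul_comm, mul_smul, hQ, smul_zero, smul_zero, sub_zero]

theorem fin_two {F : Type*} [Field F] {A B : ℤ} {l l' : ℕ} [Fact l.Prime] [Fact l'.Prime]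
    (hne : l ≠ l') (hl : ¬ (l : ℤ) ∣ 2 * B * (A ^ 2 - 4 * B))
    (hl' : ¬ (l' : ℤ) ∣ 2 * B * (A ^ 2 - 4 * B)) (f : F →+* PadicAlgCl l)
    (E : IntermediateField ℚ_[l] (PadicAlgCl l)) [FiniteDimensional ℚ_[l] E] (hE : ∀ x, f x ∈ E)
    (f' : F →+* PadicAlgCl l') (E' : IntermediateField ℚ_[l'] (PadicAlgCl l'))
    [FiniteDimensional ℚ_[l'] E'] (hE' : ∀ x, f' x ∈ E')
    (htor : ∀ P : (cv F A B).toAffine.Point, ∃ n : ℕ, n ≠ 0 ∧ n • P = 0) :
    Finite (cv F A B).toAffine.Point := by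
  have h1 := Fk_prime_to hl f E hE
  have h2 := Fk_prime_to hl' f' E' hE'
  rw [← Set.finite_univ_iff]
  refine (h1.image2 (fun u v => u + v) h2).subset ?_
  intro P _
  obtain ⟨n, hn, hP⟩ := htor P
  have hlp : l.Prime := Fact.out
  have hlp' : l'.Prime := Fact.out
  obtain ⟨e, m, hm, hnm⟩ := Nat.exists_eq_pow_mul_and_not_dvd hn l hlp.ne_one
  have hml : m.Coprime l := (hlp.coprime_iff_not_dvd.2 hm).symm
  have hll : (l ^ e).Coprime l' := ((Nat.coprime_primes hlp hlp').2 hne).pow_left e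
  have hcop : IsCoprime ((l ^ e : ℕ) : ℤ) (m : ℤ) :=
    Nat.isCoprime_iff_coprime.2 (Nat.Coprime.pow_left e hml.symm)
  obtain ⟨s, t, hst⟩ := hcop
  have hP0 : ((l ^ e : ℕ) : ℤ) • ((m : ℤ) • P) = 0 := by
    rw [natCast_zsmul, natCast_zsmul, ← mul_smul, ← hnm]
    exact hP
  have hP1 : (m : ℤ) • (((l ^ e : ℕ) : ℤ) • P) = 0 := by
    rw [smul_comm]
    exact hP0
  refine ⟨s • (((l ^ e : ℕ) : ℤ) • P), ⟨m, hml, ?_⟩, t • ((m : ℤ) • P), ⟨l ^ e, hll, ?_⟩, ?_⟩
  · rw [← natCast_zsmul, smul_comm, hP1, smul_zero]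
  · rw [← natCast_zsmul, smul_comm, hP0, smul_zero]
  · show s • (((l ^ e : ℕ) : ℤ) • P) + t • ((m : ℤ) • P) = P
    rw [← mul_smul, ← mul_smul, ← add_smul, hst, one_smul]

end H14T1
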