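import Pool.Agent.H14.T1.Md

/-!
ROW MU_Inf (project MP_78d38b_T1, Mathlib only, about 100 lines). The field `Mf D` has infinite degree if
`D` is infinite and consists of squarefree numbers.

PROOF. Suppose `Mf D` is finite-dimensional over the rationals. Then it has finitely many
intermediate fields over `ℚ` (separable extension: `Field.finite_intermediateField_of_exists_primitive_element`
or `Field.exists_primitive_element_iff_finite_intermediateField`, as `IntermediateField ℚ (Mf D)` is
finite). For `d ∈ D` choose `r d` in the algebraic closure with `(r d) ^ 2 = d`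
(`IsAlgClosed.exists_pow_nat_eq`), it lies in `Mf D`. The map `d ↦ ℚ⟮r d⟯` (as an intermediate field of
`Mf D`, or: `IntermediateField.adjoin ℚ {r d}` as a subfield of the algebraic closure below `Mf D`)
from `D` is injective on the elements `d ≠ 1`: suppose `ℚ⟮r d⟯ = ℚ⟮r d'⟯`, `d, d' ≠ 1` squarefree. Then
`r d' = u + v r d` with rational `u`, `v` (the elements of `ℚ⟮r d⟯` are of this form, as
`(r d) ^ 2` is rational), `r d ∉ ℚ` (`d` is not a rational square since it is squarefree and `≠ 1`);
squaring, `d' = u ^ 2 + v ^ 2 d + 2 u v r d`, so `u v = 0`; `v = 0` is impossible (`d'` is not a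
rational square), so `u = 0`, `d' = v ^ 2 d`, so `d d'` is a rational square, so a square of a natural
number, and for squarefree numbers this gives `d = d'` (for instance by the valuations, or
`Nat.sq_mul_squarefree` uniqueness; a prime divides the squarefree `d` iff it divides `d d'` an odd
number of times or ...: simplest: for every prime `p`, `v_p(d) + v_p(d')` is even and both are `≤ 1`, so
they are equal). An injective map from an infinite set to a finite type is impossible.
-/

set_option autoImplicit false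
open scoped Classical

namespace H14T1

open IntermediateField in
private theorem Inf_form {E : Type} [Field E] [CharZero E] [Algebra ℚ E] {r : E} {d : ℕ} (hr : r ^ 2 = (d : E))
    {x : E} (hx : x ∈ ℚ⟮r⟯) : ∃ u v : ℚ, x = algebraMap ℚ E u + algebraMap ℚ E v * r := by
  have hint : IsIntegral ℚ r := by
    refine ⟨Polynomial.X ^ 2 - Polynomial.C (d : ℚ), Polynomial.monic_X_pow_sub_C _ two_ne_zero, ?_⟩
    rw [Polynomial.eval₂_sub, Polynomial.eval₂_pow, Polynomial.eval₂_X, Polynomial.eval₂_C, hr,
      map_natCast, sub_self]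
  have h1 : x ∈ Algebra.adjoin ℚ {r} := by
    rw [← IntermediateField.adjoin_simple_toSubalgebra_of_isAlgebraic hint.isAlgebraic]
    exact hx
  induction h1 using Algebra.adjoin_induction with
  | mem y hy =>
    rw [Set.mem_singleton_iff] at hy
    exact ⟨0, 1, by rw [hy, map_zero, map_one, zero_add, one_mul]⟩
  | algebraMap q => exact ⟨q, 0, by rw [map_zero, zero_mul, add_zero]⟩
  | add y z hy hz iy iz =>
    obtain ⟨a, b, h2⟩ := iy (by
      have : y ∈ (ℚ⟮r⟯).toSubalgebra := by
        rw [IntermediateField.adjoin_simple_toSubalgebra_of_isAlgebraic hint.isAlgebraic]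
        exact hy
      exact this)
    obtain ⟨a', b', h3⟩ := iz (by
      have : z ∈ (ℚ⟮r⟯).toSubalgebra := by
        rw [IntermediateField.adjoin_simple_toSubalgebra_of_isAlgebraic hint.isAlgebraic]
        exact hz
      exact this)
    exact ⟨a + a', b + b', by rw [h2, h3, map_add, map_add]; ring⟩
  | mul y z hy hz iy iz =>
    obtain ⟨a, b, h2⟩ := iy (by
      have : y ∈ (ℚ⟮r⟯).toSubalgebra := by
        rw [IntermediateField.adjoin_simple_toSubalgebra_of_isAlgebraic hint.isAlgebraic]
        exact hy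
      exact this)
    obtain ⟨a', b', h3⟩ := iz (by
      have : z ∈ (ℚ⟮r⟯).toSubalgebra := by
        rw [IntermediateField.adjoin_simple_toSubalgebra_of_isAlgebraic hint.isAlgebraic]
        exact hz
      exact this)
    refine ⟨a * a' + b * b' * d, a * b' + a' * b, ?_⟩
    rw [h2, h3]
    simp only [map_add, map_mul, map_natCast]
    rw [← hr]
    ring

private theorem Inf_sq {E : Type} [Field E] [CharZero E] [Algebra ℚ E] {r : E} {d : ℕ} (hs : Squarefree d)
    (h1 : d ≠ 1) (hr : r ^ 2 = (d : E)) (q : ℚ) (hq : r = algebraMap ℚ E q) : False := by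
  rw [hq, ← map_pow, ← map_natCast (algebraMap ℚ E)] at hr
  have h2 := (algebraMap ℚ E).injective hr
  have h3 : IsSquare (d : ℚ) := ⟨q, by rw [← h2, sq]⟩
  rw [Rat.isSquare_natCast_iff] at h3
  obtain ⟨k, hk⟩ := h3
  have h4 := hs k (by rw [hk])
  rw [Nat.isUnit_iff] at h4
  rw [h4] at hk
  exact h1 hk

open IntermediateField in
private theorem Inf_inj {E : Type} [Field E] [CharZero E] [Algebra ℚ E] {r r' : E} {d d' : ℕ}
    (hs : Squarefree d) (hs' : Squarefree d') (h1 : d ≠ 1) (h1' : d' ≠ 1) (hr : r ^ 2 = (d : E))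
    (hr' : r' ^ 2 = (d' : E)) (h : ℚ⟮r⟯ = ℚ⟮r'⟯) : d = d' := by
  have hmem : r' ∈ ℚ⟮r⟯ := by
    rw [h]
    exact mem_adjoin_simple_self ℚ r'
  obtain ⟨u, v, huv⟩ := Inf_form hr hmem
  have e1 : algebraMap ℚ E (2 * u * v) * r = algebraMap ℚ E ((d' : ℚ) - u ^ 2 - v ^ 2 * d) := by
    simp only [map_sub, map_mul, map_pow, map_natCast, map_ofNat]
    rw [← hr', ← hr, huv]
    ring
  by_cases h2 : 2 * u * v = 0
  · rcases mul_eq_zero.1 h2 with h3 | h3
    · have hu : u = 0 := by
        rcases mul_eq_zero.1 h3 with h4 | h4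
        · exact absurd h4 two_ne_zero
        · exact h4
      rw [h2, map_zero, zero_mul, hu] at e1
      have e2 := (algebraMap ℚ E).injective ((map_zero (algebraMap ℚ E)).trans e1)
      have e3 : (d' : ℚ) = v ^ 2 * d := by linarith
      have h3 : IsSquare ((d * d' : ℕ) : ℚ) := ⟨v * d, by push_cast; rw [e3]; ring⟩
      rw [Rat.isSquare_natCast_iff] at h3
      obtain ⟨k, hk⟩ := h3
      have hdk : d ∣ k := by
        have : d ∣ k ^ 2 := ⟨d', by rw [hk, sq]⟩
        exact (hs.dvd_pow_iff_dvd two_ne_zero).1 this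
      obtain ⟨m, rfl⟩ := hdk
      have hd0 : 0 < d := Nat.pos_of_ne_zero hs.ne_zero
      have e4 : d' = d * (m * m) := by
        apply Nat.eq_of_mul_eq_mul_left hd0
        rw [hk]
        ring
      have h5 := hs' m ⟨d, by rw [e4]; ring⟩
      rw [Nat.isUnit_iff] at h5
      rw [e4, h5, mul_one, mul_one]
    · exfalso
      rw [h3, map_zero, zero_mul, add_zero] at huv
      exact Inf_sq hs' h1' hr' u huv
  · exfalso
    have h3 : algebraMap ℚ E (2 * u * v) ≠ 0 := (map_ne_zero _).2 h2
    refine Inf_sq hs h1 hr (((d' : ℚ) - u ^ 2 - v ^ 2 * d) / (2 * u * v)) ?_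
    rw [map_div₀, eq_div_iff h3, mul_comm, e1]

open IntermediateField in
theorem Mf_inf {D : Set ℕ} (hD : D.Infinite) (hs : ∀ d ∈ D, Squarefree d) :
    ¬ FiniteDimensional ℚ (Mf D) := by
  intro hfin
  have hF : Finite (IntermediateField ℚ (Mf D)) :=
    Field.finite_intermediateField_of_exists_primitive_element ℚ (Mf D) (Field.exists_primitive_element ℚ (Mf D))
  have hex : ∀ d : ↥(D \ {1}), ∃ r : Mf D, r ^ 2 = ((d : ℕ) : Mf D) := by
    rintro ⟨d, hd, -⟩
    obtain ⟨z, hz⟩ := IsAlgClosed.exists_pow_nat_eq (d : AlgebraicClosure ℚ) (n := 2) two_pos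
    refine ⟨⟨z, IntermediateField.subset_adjoin ℚ _ ⟨d, hd, hz⟩⟩, ?_⟩
    apply Subtype.ext
    push_cast
    exact hz
  choose r hr using hex
  have hinf : Infinite ↥(D \ {1}) := (hD.sdiff (Set.finite_singleton 1)).to_subtype
  refine not_injective_infinite_finite (fun d : ↥(D \ {1}) => ℚ⟮r d⟯) ?_
  intro d d' h
  exact Subtype.ext (Inf_inj (hs _ d.2.1) (hs _ d'.2.1) (fun h0 => d.2.2 h0) (fun h0 => d'.2.2 h0)
    (hr d) (hr d') h)

end H14T1
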