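import Mathlib

/-!
Definitions for the multiquadratic part of T1 (MP_78d38b). No row.
-/

set_option autoImplicit false

namespace H14T1

/-- Sets of positive integers closed under multiplication modulo squares. -/
structure Mul2 (D : Set ℕ) : Prop where
  one : 1 ∈ D
  ne : ∀ d ∈ D, d ≠ 0
  mul : ∀ d ∈ D, ∀ d' ∈ D, ∃ d'' ∈ D, ∃ s : ℕ, s ≠ 0 ∧ d * d' = d'' * s ^ 2

/-- The field generated by the square roots of the elements of `D`. -/
noncomputable def Mf (D : Set ℕ) : IntermediateField ℚ (AlgebraicClosure ℚ) :=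
  IntermediateField.adjoin ℚ {x | ∃ d ∈ D, x ^ 2 = (d : AlgebraicClosure ℚ)}

/-- The curve `y^2 = x (x^2 + A x + B)`. -/
def cv (k : Type*) [Field k] (A B : ℤ) : WeierstrassCurve k := ⟨0, (A : k), 0, (B : k), 0⟩

lemma cv_map {k l : Type*} [Field k] [Field l] (f : k →+* l) (A B : ℤ) :
    (cv k A B).map f = cv l A B := by
  ext <;> simp [cv]

end H14T1
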