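import Pool.Agent.H14.T1.Md
import Pool.Agent.H38.T1.Tw
import Pool.Agent.H93.MQ.QSha
import Pool.Agent.H93.MQ.QPts
import Pool.Agent.H11.Desc

/-!
Finiteness over the number fields inside `K M`, `M` generated by the square roots of a set of
integers closed under multiplication modulo squares.
-/

set_option autoImplicit false
set_option linter.style.haveILetI false
set_option linter.unusedSectionVars false
open scoped Classical

open NumberField IsDedekindDomain WeierstrassCurve Pool.Agent.H10 Pool.Agent.H11 Pool.Agent.H93.MQ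

namespace H14T1

/-- The two-primary part of the Tate-Shafarevich group of `W` over `K` is finite: the everywhere
locally trivial continuous cocycles `f` for which `2 ^ m f` is a coboundary for some `m` fall into
finitely many classes modulo coboundaries. -/
def TwoPartFinite (K : Type) [Field K] [NumberField K] (W : WeierstrassCurve K) : Prop :=
  ∃ S : Set ((AlgebraicClosure K ≃ₐ[K] AlgebraicClosure K) →
      (W.baseChange (AlgebraicClosure K)).toAffine.Point), S.Finite ∧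
    ∀ f : (AlgebraicClosure K ≃ₐ[K] AlgebraicClosure K) →
        (W.baseChange (AlgebraicClosure K)).toAffine.Point,
      IsCocycle K W f → IsLocTriv K W f → (∃ m : ℕ, IsCobound K W (fun σ => (2 ^ m) • f σ)) →
      ∃ g ∈ S, IsCobound K W (fun σ => f σ - g σ)

lemma twoPartFinite_of {K : Type} [Field K] [NumberField K] {W : WeierstrassCurve K}
    (h : {x : Sha K W | ∃ m : ℕ, 2 ^ m • x = 0}.Finite) : TwoPartFinite K W := by
  obtain ⟨rep, hrep⟩ : ∃ rep : Sha K W → ShaZ K W, ∀ x, Sha.mk (rep x) = x :=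
    ⟨Function.surjInv Sha.mk_surjective, Function.surjInv_eq Sha.mk_surjective⟩
  refine ⟨(fun x => (rep x : Coch K W)) '' {x : Sha K W | ∃ m : ℕ, 2 ^ m • x = 0}, h.image _, ?_⟩
  rintro f hf hl ⟨m, hm⟩
  refine ⟨_, ⟨Sha.mk ⟨f, hf, hl⟩, ⟨m, ?_⟩, rfl⟩, ?_⟩
  · rw [← Sha.mk_nsmul, Sha.mk_eq_zero]
    exact hm
  · have h1 : Sha.mk (⟨f, hf, hl⟩ : ShaZ K W) - Sha.mk (rep (Sha.mk ⟨f, hf, hl⟩)) =
        Sha.mk (⟨f, hf, hl⟩ - rep (Sha.mk ⟨f, hf, hl⟩)) := rfl
    rw [hrep, sub_self] at h1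
    exact (Sha.mk_eq_zero _).1 h1.symm

/-- The discriminant. -/
lemma cv_disc {k : Type*} [Field k] (A B : ℤ) :
    (cv k A B).Δ = ((16 * B ^ 2 * (A ^ 2 - 4 * B) : ℤ) : k) := by
  rw [WeierstrassCurve.Δ, WeierstrassCurve.b₂, WeierstrassCurve.b₄, WeierstrassCurve.b₆,
    WeierstrassCurve.b₈]
  simp only [cv]
  push_cast
  ring

lemma cv_ell {k : Type*} [Field k] [CharZero k] {A B : ℤ} (hB : B ≠ 0) (hD : A ^ 2 - 4 * B ≠ 0) :
    (cv k A B).IsElliptic := by
  refine ⟨?_⟩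
  rw [cv_disc, isUnit_iff_ne_zero]
  exact Int.cast_ne_zero.2 (mul_ne_zero (mul_ne_zero (by norm_num) (pow_ne_zero 2 hB)) hD)

lemma cv_nonsing {k l : Type*} [Field k] [Field l] (f : k →+* l) {A B : ℤ} {x y : k} :
    (cv l A B).toAffine.Nonsingular (f x) (f y) ↔ (cv k A B).toAffine.Nonsingular x y := by
  rw [← cv_map f]
  exact Affine.map_nonsingular (cv k A B) f.injective x y

/-- All curves with index in `D` have bounded two-primary part and finitely many points. -/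
def GoodD (D : Set ℕ) (A B : ℤ) (K : Type) [Field K] [NumberField K] : Prop :=
  ∀ d ∈ D, Bdd K (cv K (A * d) (B * d ^ 2)) ∧ Finite (cv K (A * d) (B * d ^ 2)).toAffine.Point

lemma cvd_ell {k : Type*} [Field k] [CharZero k] {A B : ℤ} (hB : B ≠ 0)
    (hAB : A ^ 2 - 4 * B ≠ 0) {d : ℕ} (hd : d ≠ 0) :
    (cv k (A * d) (B * d ^ 2)).IsElliptic := by
  have hd' : (d : ℤ) ≠ 0 := by exact_mod_cast hd
  refine cv_ell (mul_ne_zero hB (pow_ne_zero 2 hd')) ?_
  have : (A * d) ^ 2 - 4 * (B * (d : ℤ) ^ 2) = (A ^ 2 - 4 * B) * (d : ℤ) ^ 2 := by ring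
  rw [this]
  exact mul_ne_zero hAB (pow_ne_zero 2 hd')

theorem normal_quad {K L : Type} [Field K] [Field L] [Algebra K L] {s : L} {c : K}
    (hs : s ^ 2 = algebraMap K L c)
    (hgen : ∀ x : L, ∃ a b : K, x = algebraMap K L a + algebraMap K L b * s) : Normal K L := by
  rw [normal_iff]
  intro x
  obtain ⟨a, b, hx⟩ := hgen x
  set P : Polynomial K := (Polynomial.X - Polynomial.C a) ^ 2 - Polynomial.C (b ^ 2 * c) with hP
  have hmonic : P.Monic := by
    have h1 : ((Polynomial.X - Polynomial.C a) ^ 2 : Polynomial K).Monic :=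
      (Polynomial.monic_X_sub_C a).pow 2
    refine h1.sub_of_left ?_
    rw [Polynomial.degree_pow, Polynomial.degree_X_sub_C]
    refine lt_of_le_of_lt Polynomial.degree_C_le ?_
    norm_num
  have hfac : P.map (algebraMap K L) =
      (Polynomial.X - Polynomial.C x) *
        (Polynomial.X - Polynomial.C (algebraMap K L a - algebraMap K L b * s)) := by
    rw [hP]
    simp only [Polynomial.map_sub, Polynomial.map_pow, Polynomial.map_X, Polynomial.map_C]
    have h2 : algebraMap K L (b ^ 2 * c) = (algebraMap K L b * s) ^ 2 := by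
      rw [map_mul, map_pow, mul_pow, hs]
    rw [h2, hx]
    simp only [Polynomial.C_add, Polynomial.C_sub, Polynomial.C_pow]
    ring
  have haeval : Polynomial.aeval x P = 0 := by
    rw [Polynomial.aeval_def, ← Polynomial.eval_map, hfac]
    simp
  refine ⟨⟨P, hmonic, haeval⟩, ?_⟩
  have hdvd : minpoly K x ∣ P := minpoly.dvd K x haeval
  have hsp : (P.map (algebraMap K L)).Splits := by
    rw [hfac]
    exact (Polynomial.Splits.X_sub_C _).mul (Polynomial.Splits.X_sub_C _)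
  exact hsp.of_dvd (hmonic.map _).ne_zero (Polynomial.map_dvd _ hdvd)

theorem goodD_step {D : Set ℕ} (hD : Mul2 D) {A B : ℤ} (hB : B ≠ 0) (hAB : A ^ 2 - 4 * B ≠ 0)
    {K L : Type} [Field K] [NumberField K] [Field L] [NumberField L] [Algebra K L] {d₀ : ℕ}
    (hd₀ : d₀ ∈ D) {s : L} (hs : s ^ 2 = (d₀ : L))
    (hgen : ∀ x : L, ∃ a b : K, x = algebraMap K L a + algebraMap K L b * s)
    (H : GoodD D A B K) : GoodD D A B L := by
  have hnorm : Normal K L := normal_quad (c := (d₀ : K)) (by rw [hs, map_natCast]) hgen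
  have hs0 : s ≠ 0 := by
    intro h0
    rw [h0, zero_pow two_ne_zero] at hs
    exact hD.ne d₀ hd₀ (by exact_mod_cast hs.symm)
  have hsig : ∀ σ : L ≃ₐ[K] L, σ s = s ∨ σ s = -s := by
    intro σ
    have h1 : (σ s) ^ 2 = s ^ 2 := by
      rw [← map_pow, hs, map_natCast]
    exact sq_eq_sq_iff_eq_or_eq_neg.1 h1
  have hfix : ∀ σ : L ≃ₐ[K] L, σ s = s → σ = 1 := by
    intro σ h1
    ext x
    obtain ⟨a, b, hx⟩ := hgen x
    rw [hx, map_add, map_mul, AlgEquiv.commutes, AlgEquiv.commutes, h1]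
    simp
  intro d hd
  obtain ⟨d', hd', c, hc, hrel⟩ := hD.mul d hd d₀ hd₀
  have hc0 : (c : L) ≠ 0 := by exact_mod_cast hc
  set s' : L := s / c with hs'
  have hs'0 : s' ≠ 0 := div_ne_zero hs0 hc0
  have hdd : (d' : L) = s' ^ 2 * (d : L) := by
    have h1 : ((d * d₀ : ℕ) : L) = ((d' * c ^ 2 : ℕ) : L) := by rw [hrel]
    push_cast at h1
    rw [hs', div_pow, hs]
    field_simp
    linear_combination -h1
  have hR : Rsc s' (cv L (A * d) (B * d ^ 2)) (cv L (A * d') (B * d' ^ 2)) := by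
    refine ⟨hs'0, ?_, ?_, ?_, ?_, ?_⟩
    · show (0 : L) = s' * 0
      rw [mul_zero]
    · show ((A * d' : ℤ) : L) = s' ^ 2 * ((A * d : ℤ) : L)
      push_cast
      rw [hdd]
      ring
    · show (0 : L) = s' ^ 3 * 0
      rw [mul_zero]
    · show ((B * d' ^ 2 : ℤ) : L) = s' ^ 4 * ((B * d ^ 2 : ℤ) : L)
      push_cast
      rw [hdd]
      ring
    · show (0 : L) = s' ^ 6 * 0
      rw [mul_zero]
  have hcσ : ∀ σ : L ≃ₐ[K] L, σ s' = σ s / c := by
    intro σ
    rw [hs', map_div₀, map_natCast]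
  have hσ : ∀ σ : L ≃ₐ[K] L, σ = 1 ∨ σ s' = -s' := by
    intro σ
    rcases hsig σ with h1 | h1
    · exact Or.inl (hfix σ h1)
    · right
      rw [hcσ, h1, hs', neg_div]
  have huniq : ∀ σ τ : L ≃ₐ[K] L, σ s' = -s' → τ s' = -s' → σ = τ := by
    intro σ τ h1 h2
    have h3 : ∀ ρ : L ≃ₐ[K] L, ρ s' = -s' → ρ s = -s := by
      intro ρ h4
      rw [hcσ, hs', ← neg_div, div_left_inj' hc0] at h4
      exact h4
    ext x
    obtain ⟨a, b, hx⟩ := hgen x
    rw [hx, map_add, map_mul, map_add, map_mul, AlgEquiv.commutes, AlgEquiv.commutes,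
      AlgEquiv.commutes, AlgEquiv.commutes, h3 σ h1, h3 τ h2]
  have hell : (cv L (A * d) (B * d ^ 2)).IsElliptic := cvd_ell hB hAB (hD.ne d hd)
  exact ⟨bdd_step (cv_map (algebraMap K L) _ _) (cv_map (algebraMap K L) _ _) hR hσ huniq
      (H d hd).1 (H d' hd').1,
    fin_step (cv_map (algebraMap K L) _ _) (cv_map (algebraMap K L) _ _) hR hσ huniq
      (H d hd).2 (H d' hd').2⟩

theorem goodD_triv {D : Set ℕ} (hD : Mul2 D) {A B : ℤ} (hB : B ≠ 0) (hAB : A ^ 2 - 4 * B ≠ 0)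
    {K L : Type} [Field K] [NumberField K] [Field L] [NumberField L] [Algebra K L]
    (hs : Function.Surjective (algebraMap K L)) (H : GoodD D A B K) : GoodD D A B L := by
  refine goodD_step hD hB hAB (K := K) (L := L) hD.one (s := 1) (by simp) ?_ H
  intro x
  obtain ⟨a, ha⟩ := hs x
  exact ⟨a, 0, by simp [ha]⟩

/-- the field `F + F r` for `r ^ 2 ∈ F` -/
def ext2 {E : Type*} [Field E] [CharZero E] (F : IntermediateField ℚ E) (r : E) (hr : r ^ 2 ∈ F) :
    IntermediateField ℚ E where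
  carrier := {x | ∃ a ∈ F, ∃ b ∈ F, x = a + b * r}
  mul_mem' := by
    rintro x y ⟨a, ha, b, hb, rfl⟩ ⟨c, hc, d, hd, rfl⟩
    refine ⟨a * c + b * d * r ^ 2, F.add_mem (F.mul_mem ha hc) (F.mul_mem (F.mul_mem hb hd) hr),
      a * d + b * c, F.add_mem (F.mul_mem ha hd) (F.mul_mem hb hc), by ring⟩
  one_mem' := ⟨1, F.one_mem, 0, F.zero_mem, by ring⟩
  add_mem' := by
    rintro x y ⟨a, ha, b, hb, rfl⟩ ⟨c, hc, d, hd, rfl⟩
    exact ⟨a + c, F.add_mem ha hc, b + d, F.add_mem hb hd, by ring⟩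
  zero_mem' := ⟨0, F.zero_mem, 0, F.zero_mem, by ring⟩
  algebraMap_mem' := by
    intro c
    exact ⟨algebraMap ℚ E c, F.algebraMap_mem c, 0, F.zero_mem, by ring⟩
  inv_mem' := by
    rintro x ⟨a, ha, b, hb, rfl⟩
    by_cases h0 : a + b * r = 0
    · exact ⟨0, F.zero_mem, 0, F.zero_mem, by rw [h0]; simp⟩
    · by_cases h1 : a - b * r = 0
      · have h2 : a + b * r = 2 * a := by linear_combination -h1
        refine ⟨(2 * a)⁻¹, F.inv_mem (F.mul_mem ?_ ha), 0, F.zero_mem, by rw [h2]; ring⟩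
        have : ((2 : ℕ) : E) ∈ F := natCast_mem F 2
        exact_mod_cast this
      · have h3 : a ^ 2 - b ^ 2 * r ^ 2 ≠ 0 := by
          have : a ^ 2 - b ^ 2 * r ^ 2 = (a + b * r) * (a - b * r) := by ring
          rw [this]
          exact mul_ne_zero h0 h1
        have hm : a ^ 2 - b ^ 2 * r ^ 2 ∈ F :=
          F.sub_mem (pow_mem ha 2) (F.mul_mem (pow_mem hb 2) hr)
        refine ⟨a * (a ^ 2 - b ^ 2 * r ^ 2)⁻¹, F.mul_mem ha (F.inv_mem hm),
          -b * (a ^ 2 - b ^ 2 * r ^ 2)⁻¹, F.mul_mem (F.neg_mem hb) (F.inv_mem hm), ?_⟩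
        have h4 : a * (a ^ 2 - b ^ 2 * r ^ 2)⁻¹ + -b * (a ^ 2 - b ^ 2 * r ^ 2)⁻¹ * r =
            (a - b * r) * (a ^ 2 - b ^ 2 * r ^ 2)⁻¹ := by ring
        rw [h4]
        have h5 : a ^ 2 - b ^ 2 * r ^ 2 = (a + b * r) * (a - b * r) := by ring
        rw [h5, mul_inv]
        field_simp

/-- `F` is a number field and good. -/
def GoodF (D : Set ℕ) (A B : ℤ) (F : IntermediateField ℚ (AlgebraicClosure ℚ)) : Prop :=
  ∃ _ : NumberField F, GoodD D A B F

theorem goodF_adjoin {D : Set ℕ} (hD : Mul2 D) {A B : ℤ} (hB : B ≠ 0) (hAB : A ^ 2 - 4 * B ≠ 0)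
    {F : IntermediateField ℚ (AlgebraicClosure ℚ)} (hF : GoodF D A B F)
    {t : AlgebraicClosure ℚ} {d : ℕ} (hd : d ∈ D) (ht : t ^ 2 = (d : AlgebraicClosure ℚ)) :
    ∃ F' : IntermediateField ℚ (AlgebraicClosure ℚ), F ≤ F' ∧ t ∈ F' ∧ GoodF D A B F' := by
  obtain ⟨hN, hF⟩ := hF
  have htF : t ^ 2 ∈ F := by
    rw [ht]
    exact natCast_mem F d
  have hle : F ≤ ext2 F t htF := fun x hx => ⟨x, hx, 0, F.zero_mem, by ring⟩
  have htm : t ∈ ext2 F t htF := ⟨0, F.zero_mem, 1, F.one_mem, by ring⟩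
  letI : Algebra F (ext2 F t htF) := (IntermediateField.inclusion hle).toRingHom.toAlgebra
  have hsc : IsScalarTower ℚ F (ext2 F t htF) := by
    refine IsScalarTower.of_algebraMap_eq fun x => ?_
    rfl
  have hgen : ∀ x : ext2 F t htF, ∃ a b : F,
      x = algebraMap F (ext2 F t htF) a + algebraMap F (ext2 F t htF) b * ⟨t, htm⟩ := by
    rintro ⟨x, a, ha, b, hb, hx⟩
    exact ⟨⟨a, ha⟩, ⟨b, hb⟩, Subtype.ext hx⟩
  have hfin : Module.Finite F (ext2 F t htF) := by
    refine ⟨⟨{1, ⟨t, htm⟩}, ?_⟩⟩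
    rw [eq_top_iff]
    intro x _
    obtain ⟨a, b, hx⟩ := hgen x
    rw [hx, ← mul_one (algebraMap F (ext2 F t htF) a), ← Algebra.smul_def, ← Algebra.smul_def]
    refine Submodule.add_mem _ (Submodule.smul_mem _ _ (Submodule.subset_span ?_))
      (Submodule.smul_mem _ _ (Submodule.subset_span ?_))
    · simp
    · simp
  have hfinQ : FiniteDimensional ℚ (ext2 F t htF) := Module.Finite.trans F _
  haveI hN' : NumberField (ext2 F t htF) :=
    { to_charZero := inferInstance, to_finiteDimensional := hfinQ }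
  refine ⟨ext2 F t htF, hle, htm, hN', ?_⟩
  refine goodD_step hD hB hAB (K := F) (L := ext2 F t htF) hd (s := ⟨t, htm⟩) ?_ hgen hF
  apply Subtype.ext
  push_cast
  exact ht

theorem goodF_finset {D : Set ℕ} (hD : Mul2 D) {A B : ℤ} (hB : B ≠ 0) (hAB : A ^ 2 - 4 * B ≠ 0)
    {F : IntermediateField ℚ (AlgebraicClosure ℚ)} (hF : GoodF D A B F)
    (T : Finset (AlgebraicClosure ℚ))
    (hT : ∀ t ∈ T, ∃ d ∈ D, t ^ 2 = (d : AlgebraicClosure ℚ)) :
    ∃ F' : IntermediateField ℚ (AlgebraicClosure ℚ), F ≤ F' ∧ (∀ t ∈ T, t ∈ F') ∧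
      GoodF D A B F' := by
  induction T using Finset.induction_on with
  | empty => exact ⟨F, le_rfl, by simp, hF⟩
  | insert t T _ ih =>
    obtain ⟨F', h1, h2, h3⟩ := ih fun t ht => hT t (Finset.mem_insert_of_mem ht)
    obtain ⟨d, hd, ht⟩ := hT t (Finset.mem_insert_self t T)
    obtain ⟨F'', h4, h5, h6⟩ := goodF_adjoin hD hB hAB h3 hd ht
    refine ⟨F'', h1.trans h4, ?_, h6⟩
    intro x hx
    rcases Finset.mem_insert.1 hx with rfl | hx
    · exact h5
    · exact h4 (h2 x hx)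

/-- Every element of the compositum lies in a good number field. -/
theorem goodF_mem {D : Set ℕ} (hD : Mul2 D) {A B : ℤ} (hB : B ≠ 0) (hAB : A ^ 2 - 4 * B ≠ 0)
    {F : IntermediateField ℚ (AlgebraicClosure ℚ)} (hF : GoodF D A B F)
    (T : Finset (AlgebraicClosure ℚ)) (hT : ∀ t ∈ T, t ∈ F ⊔ Mf D) :
    ∃ F' : IntermediateField ℚ (AlgebraicClosure ℚ), F ≤ F' ∧ (∀ t ∈ T, t ∈ F') ∧
      GoodF D A B F' := by
  induction T using Finset.induction_on with
  | empty => exact ⟨F, le_rfl, by simp, hF⟩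
  | insert x T _ ih =>
    obtain ⟨F', h1, h2, h3⟩ := ih fun t ht => hT t (Finset.mem_insert_of_mem ht)
    have hx : x ∈ IntermediateField.adjoin ℚ
        ((F : Set (AlgebraicClosure ℚ)) ∪ {x | ∃ d ∈ D, x ^ 2 = (d : AlgebraicClosure ℚ)}) := by
      have h := hT x (Finset.mem_insert_self x T)
      rw [IntermediateField.adjoin_union, IntermediateField.adjoin_self]
      exact h
    obtain ⟨U, hU, hxU⟩ := IntermediateField.exists_finset_of_mem_adjoin hx
    obtain ⟨F'', h4, h5, h6⟩ := goodF_finset hD hB hAB h3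
      (U.filter fun t => ∃ d ∈ D, t ^ 2 = (d : AlgebraicClosure ℚ))
      (fun t ht => (Finset.mem_filter.1 ht).2)
    refine ⟨F'', h1.trans h4, ?_, h6⟩
    intro y hy
    rcases Finset.mem_insert.1 hy with rfl | hy
    · have hle : IntermediateField.adjoin ℚ (U : Set (AlgebraicClosure ℚ)) ≤ F'' := by
        rw [IntermediateField.adjoin_le_iff]
        intro u hu
        rcases hU hu with h7 | h7
        · exact h4 (h1 h7)
        · exact h5 u (Finset.mem_filter.2 ⟨hu, h7⟩)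
      exact hle hxU
    · exact h4 (h2 y hy)

lemma bdd_of_sha2 {K : Type} [Field K] [NumberField K] {W : WeierstrassCurve K}
    (h : Sha2Trivial K W) : Bdd K W := by
  refine ⟨0, ?_⟩
  rintro x ⟨m, hm⟩
  obtain ⟨f, rfl⟩ := Sha.mk_surjective x
  rw [pow_zero, one_nsmul, Sha.mk_eq_zero]
  rw [← Sha.mk_nsmul, Sha.mk_eq_zero] at hm
  exact h f.1 f.2.1 f.2.2 ⟨m, hm⟩

lemma goodD_of_triv {D : Set ℕ} {A B : ℤ} {K : Type} [Field K] [NumberField K]
    (h : ∀ d ∈ D, H38T1.Triv K ((A * d : ℤ) : K) ((B * d ^ 2 : ℤ) : K)) : GoodD D A B K :=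
  fun d hd => ⟨bdd_of_sha2 (h d hd).1, (h d hd).2⟩

/-- From `K` to its image in the algebraic closure. -/
theorem goodF_range {D : Set ℕ} (hD : Mul2 D) {A B : ℤ} (hB : B ≠ 0) (hAB : A ^ 2 - 4 * B ≠ 0)
    {K : Type} [Field K] [NumberField K] (H : GoodD D A B K) (i : K →ₐ[ℚ] AlgebraicClosure ℚ) :
    GoodF D A B i.fieldRange := by
  letI : Algebra K i.fieldRange := i.rangeRestrict.toRingHom.toAlgebra
  have hsurj : Function.Surjective (algebraMap K i.fieldRange) := i.rangeRestrict_surjective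
  have hfin : FiniteDimensional ℚ i.fieldRange := by
    have h1 : Module.Finite ℚ K := inferInstance
    exact Module.Finite.of_surjective i.rangeRestrict.toLinearMap i.rangeRestrict_surjective
  haveI hN : NumberField i.fieldRange :=
    { to_charZero := inferInstance, to_finiteDimensional := hfin }
  exact ⟨hN, goodD_triv hD hB hAB (K := K) (L := i.fieldRange) hsurj H⟩

theorem multi_sha {K L : Type} [Field K] [NumberField K] [Field L] [NumberField L] {D : Set ℕ}
    (hD : Mul2 D) {A B : ℤ} (hB : B ≠ 0) (hAB : A ^ 2 - 4 * B ≠ 0)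
    (H : GoodD D A B K) (i : K →ₐ[ℚ] AlgebraicClosure ℚ) (j : L →ₐ[ℚ] AlgebraicClosure ℚ)
    (hij : j.fieldRange ≤ i.fieldRange ⊔ Mf D) (d : ℕ) (hd : d ∈ D) :
    {x : Sha L (cv L (A * d) (B * d ^ 2)) | ∃ m : ℕ, 2 ^ m • x = 0}.Finite ∧
      Finite (cv L (A * d) (B * d ^ 2)).toAffine.Point := by
  obtain ⟨α, hα⟩ := Field.exists_primitive_element ℚ L
  obtain ⟨F', -, h2, hN, hG⟩ := goodF_mem hD hB hAB (goodF_range hD hB hAB H i) {j α} (by
    intro t ht
    rw [Finset.mem_singleton] at ht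
    subst ht
    exact hij ⟨α, rfl⟩)
  have hle : ∀ x : L, j x ∈ F' := by
    have h3 : IntermediateField.adjoin ℚ {α} ≤ F'.comap j := by
      rw [IntermediateField.adjoin_le_iff]
      intro y hy
      rw [Set.mem_singleton_iff] at hy
      subst hy
      exact h2 _ (Finset.mem_singleton_self _)
    rw [hα] at h3
    exact fun x => h3 (IntermediateField.mem_top (x := x))
  let g : L →+* F' := (j : L →+* AlgebraicClosure ℚ).codRestrict F' hle
  letI : Algebra L F' := g.toAlgebra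
  haveI : FiniteDimensional L F' := Module.Finite.of_restrictScalars_finite ℚ L F'
  obtain ⟨⟨N, hNb⟩, hfinF⟩ := hG d hd
  have hV : (cv L (A * d) (B * d ^ 2)).map (algebraMap L F') = cv F' (A * d) (B * d ^ 2) :=
    cv_map _ _ _
  have hfr : Module.finrank L F' ≠ 0 := Module.finrank_pos.ne'
  haveI : (cv L (A * d) (B * d ^ 2)).IsElliptic := cvd_ell hB hAB (hD.ne d hd)
  constructor
  · refine (sha_finite_torsion (cv L (A * d) (B * d ^ 2)) (2 ^ N * Module.finrank L F')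
      (mul_ne_zero (by positivity) hfr)).subset ?_
    rintro x ⟨m, hm⟩
    have h1 : 2 ^ N • Sha.res hV x = 0 := by
      refine hNb _ ⟨m, ?_⟩
      rw [← map_nsmul, hm, map_zero]
    have h2 := congrArg (Sha.cor hV) h1
    rw [map_nsmul, map_zero, Sha.cor_res, ← mul_nsmul'] at h2
    exact h2
  · exact Finite.of_injective (pm (algebraMap L F') hV) (pm_injective _ hV)

/-- **S5.** -/
theorem multi {K L : Type} [Field K] [NumberField K] [Field L] [NumberField L] {D : Set ℕ}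
    (hD : Mul2 D) {A B : ℤ} (hB : B ≠ 0) (hAB : A ^ 2 - 4 * B ≠ 0)
    (h : ∀ d ∈ D, H38T1.Triv K ((A * d : ℤ) : K) ((B * d ^ 2 : ℤ) : K))
    (i : K →ₐ[ℚ] AlgebraicClosure ℚ) (j : L →ₐ[ℚ] AlgebraicClosure ℚ)
    (hij : j.fieldRange ≤ i.fieldRange ⊔ Mf D) :
    TwoPartFinite L (cv L A B) ∧ Finite (cv L A B).toAffine.Point := by
  obtain ⟨h1, h2⟩ := multi_sha hD hB hAB (goodD_of_triv h) i j hij 1 hD.one
  have e : cv L (A * (1 : ℕ)) (B * (1 : ℕ) ^ 2) = cv L A B := by simp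
  rw [e] at h1 h2
  exact ⟨twoPartFinite_of h1, h2⟩

/-- Every point over the compositum is torsion. -/
theorem tors_comp {K : Type} [Field K] [NumberField K] {D : Set ℕ} (hD : Mul2 D) {A B : ℤ}
    (hB : B ≠ 0) (hAB : A ^ 2 - 4 * B ≠ 0) (H : GoodD D A B K)
    (i : K →ₐ[ℚ] AlgebraicClosure ℚ)
    (P : (cv (i.fieldRange ⊔ Mf D : IntermediateField ℚ (AlgebraicClosure ℚ)) A
      B).toAffine.Point) : ∃ n : ℕ, n ≠ 0 ∧ n • P = 0 := by
  rcases P with _ | ⟨x, y, hxy⟩
  · exact ⟨1, one_ne_zero, one_nsmul 0⟩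
  · obtain ⟨F', -, h2, hN, hG⟩ := goodF_mem hD hB hAB (goodF_range hD hB hAB H i)
      {(x : AlgebraicClosure ℚ), (y : AlgebraicClosure ℚ)} (by
        intro t ht
        rcases Finset.mem_insert.1 ht with rfl | ht
        · exact x.2
        · rw [Finset.mem_singleton] at ht
          subst ht
          exact y.2)
    have hx' := h2 x (Finset.mem_insert_self _ _)
    have hy' := h2 y (Finset.mem_insert_of_mem (Finset.mem_singleton_self _))
    have hfin : Finite (cv F' A B).toAffine.Point := by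
      have h3 := (hG 1 hD.one).2
      have e : cv F' (A * (1 : ℕ)) (B * (1 : ℕ) ^ 2) = cv F' A B := by simp
      rwa [e] at h3
    have hns' : (cv (AlgebraicClosure ℚ) A B).toAffine.Nonsingular
        (x : AlgebraicClosure ℚ) (y : AlgebraicClosure ℚ) :=
      (cv_nonsing (algebraMap (i.fieldRange ⊔ Mf D : IntermediateField ℚ (AlgebraicClosure ℚ))
          (AlgebraicClosure ℚ))).2 hxy
    have hns : (cv F' A B).toAffine.Nonsingular ⟨x, hx'⟩ ⟨y, hy'⟩ :=
      (cv_nonsing (algebraMap F' (AlgebraicClosure ℚ))).1 hns'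
    obtain ⟨m, hm0, hm⟩ := isOfFinAddOrder_iff_nsmul_eq_zero.1
      (isOfFinAddOrder_of_finite (Affine.Point.some _ _ hns))
    refine ⟨m, hm0.ne', ?_⟩
    have hinj := pm_injective (algebraMap (i.fieldRange ⊔ Mf D : IntermediateField ℚ
      (AlgebraicClosure ℚ)) (AlgebraicClosure ℚ)) (cv_map _ A B)
    apply hinj
    rw [map_nsmul, map_zero]
    have e1 : pm (algebraMap (i.fieldRange ⊔ Mf D : IntermediateField ℚ
        (AlgebraicClosure ℚ)) (AlgebraicClosure ℚ)) (cv_map _ A B) (.some x y hxy) =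
        pm (algebraMap F' (AlgebraicClosure ℚ)) (cv_map _ A B) (.some _ _ hns) := rfl
    rw [e1, ← map_nsmul, hm, map_zero]

end H14T1
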